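import Pool.Agent.Helper30.GA.Defs

/-!
# The normal form of a simple word
-/

set_option autoImplicit false

namespace Pool.Agent.Helper8.GA

open Pool.Agent.Helper69.LZ Pool.Agent.Helper30.GA

/-- the labels of the strands after the word -/
def lab (p : ℕ → ℕ) (w : List ℕ) : ℕ → ℕ := w.foldl swp p

@[simp] theorem lab_nil (p : ℕ → ℕ) : lab p [] = p := rfl

@[simp] theorem lab_cons (p : ℕ → ℕ) (a : ℕ) (w : List ℕ) : lab p (a :: w) = lab (swp p a) w := rfl

theorem lab_append (p : ℕ → ℕ) (v w : List ℕ) : lab p (v ++ w) = lab (lab p v) w := by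
  unfold lab
  rw [List.foldl_append]

theorem once_append (p : ℕ → ℕ) (v w : List ℕ) : Once p (v ++ w) ↔ Once p v ∧ Once (lab p v) w := by
  induction v generalizing p with
  | nil => simp [Once]
  | cons a v ih =>
    rw [List.cons_append]
    change (p a < p (a + 1) ∧ Once (swp p a) (v ++ w)) ↔ (p a < p (a + 1) ∧ Once (swp p a) v) ∧ Once (lab (swp p a) v) w
    rw [ih, and_assoc]

/-- the two words act in the same way on vectors and on labels -/
def R (u v : List ℕ) : Prop := (∀ (t : ℂ) (L : ℕ → ℂ), run t u L = run t v L) ∧ ∀ p, lab p u = lab p v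

theorem R.refl (u : List ℕ) : R u u := ⟨fun _ _ => rfl, fun _ => rfl⟩

theorem R.symm {u v : List ℕ} (h : R u v) : R v u := ⟨fun t L => (h.1 t L).symm, fun p => (h.2 p).symm⟩

theorem R.trans {u v w : List ℕ} (h : R u v) (h' : R v w) : R u w :=
  ⟨fun t L => (h.1 t L).trans (h'.1 t L), fun p => (h.2 p).trans (h'.2 p)⟩

theorem R.append {u v u' v' : List ℕ} (h : R u v) (h' : R u' v') : R (u ++ u') (v ++ v') :=
  ⟨fun t L => by rw [run_append, run_append, h.1, h'.1], fun p => by rw [lab_append, lab_append, h.2, h'.2]⟩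

theorem comm_aux {a b : ℕ} (h : a + 2 ≤ b) : R [a, b] [b, a] := by
  constructor
  · intro t L
    simp only [run_cons, run_nil]
    funext j
    unfold sg
    simp only [Function.update_apply]
    by_cases h1 : j = a + 1
    · subst h1
      rw [if_neg (by omega), if_pos rfl, if_pos rfl, if_neg (by omega), if_neg (by omega), if_neg (by omega)]
    · by_cases h2 : j = b + 1
      · subst h2
        rw [if_pos rfl, if_neg (by omega), if_neg (by omega), if_neg (by omega), if_neg (by omega), if_pos rfl]
      · rw [if_neg h2, if_neg h1, if_neg h1, if_neg h2]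
  · intro p
    simp only [lab_cons, lab_nil]
    funext j
    unfold swp
    by_cases h1 : j = b
    · subst h1
      rw [if_pos rfl, if_neg (by omega), if_neg (by omega), if_neg (by omega), if_neg (by omega), if_pos rfl]
    · by_cases h2 : j = b + 1
      · subst h2
        rw [if_neg (by omega), if_pos rfl, if_neg (by omega), if_neg (by omega), if_neg (by omega), if_neg (by omega),
          if_neg (by omega), if_pos rfl]
      · rw [if_neg h1, if_neg h2]
        by_cases h3 : j = a
        · subst h3
          rw [if_pos rfl, if_pos rfl, if_neg (by omega), if_neg (by omega)]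
        · by_cases h4 : j = a + 1
          · subst h4
            rw [if_neg (by omega), if_pos rfl, if_neg (by omega), if_pos rfl, if_neg (by omega), if_neg (by omega)]
          · rw [if_neg h3, if_neg h4, if_neg h3, if_neg h4, if_neg h1, if_neg h2]

theorem comm {a b : ℕ} (h : a + 2 ≤ b ∨ b + 2 ≤ a) : R [a, b] [b, a] := by
  rcases h with h | h
  · exact comm_aux h
  · exact (comm_aux h).symm

theorem braid (a : ℕ) : R [a, a + 1, a] [a + 1, a, a + 1] := by
  constructor
  · intro t L
    simp only [run_cons, run_nil]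
    funext j
    unfold sg
    simp only [Function.update_apply]
    have n1 : ¬ a = a + 1 + 1 := by omega
    have n2 : ¬ a + 1 + 1 = a := by omega
    have n3 : ¬ a + 1 + 1 + 1 = a + 1 := by omega
    have n4 : ¬ a = a + 1 := by omega
    have n5 : ¬ a + 1 = a := by omega
    by_cases h1 : j = a + 1
    · subst h1
      simp [n1, n2]
      try ring
    · by_cases h2 : j = a + 1 + 1
      · subst h2
        simp [n1, n2]
        try ring
      · rw [if_neg h1, if_neg h2, if_neg h1, if_neg h2, if_neg h1, if_neg h2]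
  · intro p
    simp only [lab_cons, lab_nil]
    funext j
    unfold swp
    have n1 : ¬ a = a + 1 + 1 := by omega
    have n2 : ¬ a + 1 + 1 = a := by omega
    by_cases h1 : j = a
    · subst h1
      simp [n1, n2]
    · by_cases h2 : j = a + 1
      · subst h2
        simp [n1, n2]
      · by_cases h3 : j = a + 1 + 1
        · subst h3
          simp [n1, n2]
        · rw [if_neg h1, if_neg h2, if_neg h2, if_neg h3, if_neg h1, if_neg h2, if_neg h2, if_neg h3, if_neg h1,
            if_neg h2, if_neg h2, if_neg h3]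

theorem comm_word {a : ℕ} (w : List ℕ) (h : ∀ b ∈ w, a + 2 ≤ b ∨ b + 2 ≤ a) : R (w ++ [a]) (a :: w) := by
  induction w with
  | nil => exact R.refl _
  | cons b w ih =>
    have h1 := ih fun x hx => h x (List.mem_cons_of_mem b hx)
    have h2 : R ([b] ++ (w ++ [a])) ([b] ++ (a :: w)) := (R.refl _).append h1
    have h3 : R ([b, a] ++ w) ([a, b] ++ w) := (comm (h b (by simp))).symm.append (R.refl _)
    exact h2.trans h3

theorem vb_add (k i j : ℕ) : vb k (i + j) = vb k i ++ vb (k - i) j := by
  induction j with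
  | zero => simp
  | succ j ih =>
    rw [← add_assoc, vb_succ, vb_succ, ih, List.append_assoc, Nat.sub_sub]

theorem mem_vb {k m b : ℕ} : b ∈ vb k m ↔ ∃ i < m, k - i = b := by
  unfold vb
  simp [List.mem_map, List.mem_range]

theorem vb_two (k : ℕ) : vb k 2 = [k, k - 1] := rfl

/-- a letter inside the descending run moves to the front and goes down by one -/
theorem shift {n m a : ℕ} (hm : m ≤ n + 1) (ha : a ≤ n) (h : n + 2 ≤ a + m) : R (vb n m ++ [a]) ((a - 1) :: vb n m) := by
  obtain ⟨b, rfl⟩ : ∃ b, a = b + 1 := ⟨a - 1, by omega⟩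
  obtain ⟨i, rfl⟩ : ∃ i, n = b + 1 + i := ⟨n - (b + 1), by omega⟩
  obtain ⟨r, rfl⟩ : ∃ r, m = i + (2 + r) := ⟨m - i - 2, by omega⟩
  have e1 : b + 1 + i - i = b + 1 := by omega
  have e2 : b + 1 - 2 = b - 1 := by omega
  have e : vb (b + 1 + i) (i + (2 + r)) = vb (b + 1 + i) i ++ ([b + 1, b] ++ vb (b - 1) r) := by
    rw [vb_add, e1, vb_add, e2, vb_two, Nat.add_sub_cancel]
  rw [e, Nat.add_sub_cancel]
  have hY : R (vb (b - 1) r ++ [b + 1]) ((b + 1) :: vb (b - 1) r) := comm_word _ fun x hx => by
    obtain ⟨y, hy, rfl⟩ := mem_vb.1 hx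
    omega
  have hX : R (vb (b + 1 + i) i ++ [b]) (b :: vb (b + 1 + i) i) := comm_word _ fun x hx => by
    obtain ⟨y, hy, rfl⟩ := mem_vb.1 hx
    omega
  obtain ⟨X, hXe⟩ : ∃ X, X = vb (b + 1 + i) i := ⟨_, rfl⟩
  obtain ⟨Y, hYe⟩ : ∃ Y, Y = vb (b - 1) r := ⟨_, rfl⟩
  rw [← hXe] at hX ⊢
  rw [← hYe] at hY ⊢
  have s1 : R (X ++ ([b + 1, b] ++ Y) ++ [b + 1]) (X ++ ([b + 1, b] ++ ((b + 1) :: Y))) := by
    rw [List.append_assoc, List.append_assoc]
    exact (R.refl X).append ((R.refl _).append hY)
  have s2 : R (X ++ ([b + 1, b] ++ ((b + 1) :: Y))) (X ++ ([b, b + 1, b] ++ Y)) := by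
    have : [b + 1, b] ++ ((b + 1) :: Y) = [b + 1, b, b + 1] ++ Y := rfl
    rw [this]
    exact (R.refl X).append ((braid b).symm.append (R.refl Y))
  have s3 : R (X ++ ([b, b + 1, b] ++ Y)) (b :: (X ++ ([b + 1, b] ++ Y))) := by
    have e3 : X ++ ([b, b + 1, b] ++ Y) = (X ++ [b]) ++ ([b + 1, b] ++ Y) := by simp
    have e4 : b :: (X ++ ([b + 1, b] ++ Y)) = (b :: X) ++ ([b + 1, b] ++ Y) := rfl
    rw [e3, e4]
    exact hX.append (R.refl _)
  exact s1.trans (s2.trans s3)

/-- the labels after a descending run -/
theorem lab_vb (p : ℕ → ℕ) (n : ℕ) : ∀ m, m ≤ n + 1 → ∀ j, lab p (vb n m) j =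
    if j < n + 1 - m then p j else if j = n + 1 - m then p (n + 1) else if j ≤ n + 1 then p (j - 1) else p j := by
  intro m
  induction m with
  | zero =>
    intro _ j
    rw [vb_zero, lab_nil]
    rcases lt_trichotomy j (n + 1) with h | h | h
    · rw [if_pos (by omega)]
    · rw [if_neg (by omega), if_pos (by omega), h]
    · rw [if_neg (by omega), if_neg (by omega), if_neg (by omega)]
  | succ m ih =>
    intro hm j
    have ih' := ih (by omega)
    rw [vb_succ, lab_append, lab_cons, lab_nil]
    unfold swp
    by_cases h1 : j = n - m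
    · rw [if_pos h1, ih', if_neg (by omega), if_pos (by omega), if_neg (by omega), if_pos (by omega)]
    · rw [if_neg h1]
      by_cases h2 : j = n - m + 1
      · rw [if_pos h2, ih', if_pos (by omega), if_neg (by omega), if_neg (by omega), if_pos (by omega)]
        congr 1
        omega
      · rw [if_neg h2, ih']
        by_cases h3 : j < n + 1 - (m + 1)
        · rw [if_pos (by omega), if_pos h3]
        · rw [if_neg (by omega : ¬ j < n + 1 - m), if_neg (by omega : ¬ j = n + 1 - m), if_neg h3,
            if_neg (by omega : ¬ j = n + 1 - (m + 1))]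

/-- labels of positions that are not touched -/
theorem lab_bound {n : ℕ} (w : List ℕ) (hw : ∀ a ∈ w, a < n) (p : ℕ → ℕ) (h1 : ∀ j ≤ n, p j ≤ n) (h2 : ∀ j, n < j → p j = j) :
    (∀ j ≤ n, lab p w j ≤ n) ∧ ∀ j, n < j → lab p w j = j := by
  induction w generalizing p with
  | nil => exact ⟨h1, h2⟩
  | cons a w ih =>
    rw [lab_cons]
    have ha := hw a (by simp)
    refine ih (fun x hx => hw x (List.mem_cons_of_mem a hx)) _ ?_ ?_
    · intro j hj
      unfold swp
      split_ifs with h3 h4
      · exact h1 _ (by omega)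
      · exact h1 _ (by omega)
      · exact h1 _ hj
    · intro j hj
      unfold swp
      rw [if_neg (by omega), if_neg (by omega)]
      exact h2 j hj

theorem sw_lt {n : ℕ} {c : ℕ → ℕ} : ∀ a ∈ sw n c, a < n := by
  intro a ha
  unfold sw at ha
  rw [List.mem_flatMap] at ha
  obtain ⟨k, hk, hak⟩ := ha
  rw [List.mem_range] at hk
  obtain ⟨i, _, rfl⟩ := mem_vb.1 hak
  omega

theorem sw_congr {n : ℕ} {c c' : ℕ → ℕ} (h : ∀ k < n, c k = c' k) : sw n c = sw n c' := by
  induction n with
  | zero => rfl
  | succ n ih => rw [sw_succ, sw_succ, ih fun k hk => h k (by omega), h n (by omega)]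

/-- one more letter -/
theorem step (n : ℕ) : ∀ c : ℕ → ℕ, (∀ k, c k ≤ k + 1) → ∀ a < n, lab id (sw n c) a < lab id (sw n c) (a + 1) →
    ∃ c' : ℕ → ℕ, (∀ k, c' k ≤ k + 1) ∧ R (sw n c ++ [a]) (sw n c') := by
  induction n with
  | zero => intro c _ a ha; omega
  | succ n ih =>
    intro c hc a ha hlt
    obtain ⟨m, hm⟩ : ∃ m, m = c n := ⟨_, rfl⟩
    have hmn : m ≤ n + 1 := by rw [hm]; exact hc n
    obtain ⟨p, hp⟩ : ∃ p, p = lab id (sw n c) := ⟨_, rfl⟩
    obtain ⟨hb1, hb2⟩ := lab_bound (n := n) (sw n c) sw_lt id (fun j hj => hj) (fun j _ => rfl)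
    rw [← hp] at hb1 hb2
    rw [sw_succ, lab_append, ← hp, ← hm, lab_vb p n m hmn, lab_vb p n m hmn] at hlt
    -- the inductive hypothesis for a letter in front of the last run
    have key : ∀ a' < n, p a' < p (a' + 1) → R (vb n m ++ [a]) (a' :: vb n m) →
        ∃ c' : ℕ → ℕ, (∀ k, c' k ≤ k + 1) ∧ R (sw (n + 1) c ++ [a]) (sw (n + 1) c') := by
      intro a' ha' hlt' hR
      rw [hp] at hlt'
      obtain ⟨c', hc', hR'⟩ := ih c hc a' ha' hlt'
      refine ⟨Function.update c' n m, ?_, ?_⟩
      · intro k
        rw [Function.update_apply]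
        split_ifs with hk
        · rw [hk]; exact hmn
        · exact hc' k
      · rw [sw_succ, sw_succ, Function.update_self, ← hm, sw_congr (c := Function.update c' n m) (c' := c') (n := n) (fun k hk => by
          rw [Function.update_of_ne (by omega)]), List.append_assoc]
        refine ((R.refl (sw n c)).append hR).trans ?_
        have e : sw n c ++ a' :: vb n m = (sw n c ++ [a']) ++ vb n m := by simp
        rw [e]
        exact hR'.append (R.refl _)
    rcases Nat.lt_or_ge (a + m) n with h1 | h1
    · -- the letter commutes with the last run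
      refine key a (by omega) ?_ (comm_word _ fun x hx => ?_)
      · rwa [if_pos (by omega), if_pos (by omega)] at hlt
      · obtain ⟨y, hy, rfl⟩ := mem_vb.1 hx
        omega
    · rcases Nat.eq_or_lt_of_le h1 with h2 | h2
      · -- the run becomes longer
        refine ⟨Function.update c n (m + 1), ?_, ?_⟩
        · intro k
          rw [Function.update_apply]
          split_ifs with hk
          · omega
          · exact hc k
        · rw [sw_succ, sw_succ, Function.update_self, ← hm, sw_congr (c := Function.update c n (m + 1)) (c' := c) (n := n)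
            (fun k hk => by rw [Function.update_of_ne (by omega)]), List.append_assoc, vb_succ]
          have e : n - m = a := by omega
          rw [e]
          exact R.refl _
      · rcases Nat.lt_or_ge (a + m) (n + 2) with h3 | h3
        · -- impossible
          exfalso
          rw [if_neg (by omega), if_pos (by omega), if_neg (by omega), if_neg (by omega), if_pos (by omega)] at hlt
          have h4 := hb1 (a + 1 - 1) (by omega)
          rw [hb2 (n + 1) (by omega)] at hlt
          omega
        · -- the letter moves to the front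
          refine key (a - 1) (by omega) ?_ (shift hmn (by omega) h3)
          rw [if_neg (by omega), if_neg (by omega), if_pos (by omega), if_neg (by omega), if_neg (by omega), if_pos (by omega)] at hlt
          have e1 : a + 1 - 1 = a := by omega
          have e2 : a - 1 + 1 = a := by omega
          rw [e1] at hlt
          rw [e2]
          exact hlt

/-- **The normal form of a simple word.** -/
theorem normal {n : ℕ} {w : List ℕ} (hw : ∀ a ∈ w, a < n) (h : Once id w) :
    ∃ c : ℕ → ℕ, (∀ k, c k ≤ k + 1) ∧ ∀ (t : ℂ) (L : ℕ → ℂ), run t w L = run t (sw n c) L := by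
  suffices H : ∃ c : ℕ → ℕ, (∀ k, c k ≤ k + 1) ∧ R w (sw n c) by
    obtain ⟨c, hc, hR⟩ := H
    exact ⟨c, hc, hR.1⟩
  induction w using List.reverseRecOn with
  | nil =>
    refine ⟨fun _ => 0, fun k => Nat.zero_le _, ?_⟩
    have e : sw n (fun _ => 0) = [] := by
      unfold sw
      simp
    rw [e]
    exact R.refl _
  | append_singleton u a ih =>
    rw [once_append] at h
    obtain ⟨c, hc, hR⟩ := ih (fun x hx => hw x (by simp [hx])) h.1
    have h1 := h.2
    unfold Once at h1
    rw [hR.2] at h1
    obtain ⟨c', hc', hR'⟩ := step n c hc a (hw a (by simp)) h1.1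
    exact ⟨c', hc', (hR.append (R.refl _)).trans hR'⟩

end Pool.Agent.Helper8.GA
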